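import Pool.Agent.X116.RaG

open MeasureTheory Set Filter Topology

namespace Pool.Agent.Results.MP_a4d326_an.NotBalanced

/-- the representative of `x` modulo `2π` in `[0, 2π)` -/
noncomputable def mod2pi (x : ℝ) : ℝ := toIcoMod Real.two_pi_pos 0 x

/-- `τ₁(a,b) = min {n ≥ 1 : (n a - b) mod 2π < ε}` (with `min ∅ = ∞`) -/
noncomputable def tau1 (ε a b : ℝ) : ℕ∞ :=
  sInf {m : ℕ∞ | ∃ n : ℕ, 1 ≤ n ∧ mod2pi (n * a - b) < ε ∧ m = n}

/-- `τ₂(a,b) = min {n ≥ 1 : (n a - n b) mod 2π < ε}` (with `min ∅ = ∞`) -/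
noncomputable def tau2 (ε a b : ℝ) : ℕ∞ :=
  sInf {m : ℕ∞ | ∃ n : ℕ, 1 ≤ n ∧ mod2pi (n * a - n * b) < ε ∧ m = n}

/-- the square `E = [0, 2π)²` -/
def E : Set (ℝ × ℝ) := Ico 0 (2 * Real.pi) ×ˢ Ico 0 (2 * Real.pi)

/-- `E¹_ε = {(a,b) ∈ E : τ₁(a,b) < τ₂(a,b)}` -/
def E1 (ε : ℝ) : Set (ℝ × ℝ) := {z ∈ E | tau1 ε z.1 z.2 < tau2 ε z.1 z.2}

/-- `E²_ε = E \ E¹_ε` -/
def E2 (ε : ℝ) : Set (ℝ × ℝ) := E \ E1 ε

lemma mod2pi_eq (x : ℝ) : mod2pi (2 * Real.pi * x) = 2 * Real.pi * Int.fract x := by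
  unfold mod2pi
  rw [toIcoMod_eq_fract_mul]
  have : 2 * Real.pi * x / (2 * Real.pi) = x := by
    field_simp
  rw [this, mul_comm]

lemma lt_iff {P Q : ℕ → Prop} :
    sInf {m : ℕ∞ | ∃ n : ℕ, 1 ≤ n ∧ P n ∧ m = n} < sInf {m : ℕ∞ | ∃ n : ℕ, 1 ≤ n ∧ Q n ∧ m = n}
      ↔ ∃ n : ℕ, 1 ≤ n ∧ P n ∧ ∀ k : ℕ, 1 ≤ k → k ≤ n → ¬ Q k := by
  constructor
  · intro h
    obtain ⟨m, ⟨n, hn, hP, rfl⟩, hm⟩ := sInf_lt_iff.1 h
    refine ⟨n, hn, hP, fun k hk hkn hQ => ?_⟩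
    have h1 : sInf {m : ℕ∞ | ∃ n : ℕ, 1 ≤ n ∧ Q n ∧ m = n} ≤ (k : ℕ∞) := sInf_le ⟨k, hk, hQ, rfl⟩
    have h2 : (n : ℕ∞) < k := hm.trans_le h1
    have h3 : n < k := by exact_mod_cast h2
    omega
  · rintro ⟨n, hn, hP, hQ⟩
    have h1 : sInf {m : ℕ∞ | ∃ n : ℕ, 1 ≤ n ∧ P n ∧ m = n} ≤ (n : ℕ∞) := sInf_le ⟨n, hn, hP, rfl⟩
    refine h1.trans_lt ?_
    have h2 : ((n + 1 : ℕ) : ℕ∞) ≤ sInf {m : ℕ∞ | ∃ n : ℕ, 1 ≤ n ∧ Q n ∧ m = n} := by
      apply le_sInf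
      rintro m ⟨k, hk, hQk, rfl⟩
      have : n < k := by
        by_contra hcon
        exact hQ k hk (by omega) hQk
      exact_mod_cast this
    refine lt_of_lt_of_le ?_ h2
    exact_mod_cast Nat.lt_succ_self n

lemma mem_scaled (ε : ℝ) (z : ℝ × ℝ) :
    (2 * Real.pi) • z ∈ E1 (2 * Real.pi * ε) ↔ z ∈ Pool.Agent.X116.Ra.E1u ε := by
  have hp := Real.two_pi_pos
  unfold E1 E Pool.Agent.X116.Ra.E1u Pool.Agent.X116.Ra.sq tau1 tau2
  simp only [Set.mem_ofPred_eq, Prod.smul_fst, Prod.smul_snd, smul_eq_mul, Set.mem_prod,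
    Set.mem_Ico]
  rw [lt_iff]
  have e1 : ∀ n : ℕ, mod2pi (n * (2 * Real.pi * z.1) - 2 * Real.pi * z.2) < 2 * Real.pi * ε
      ↔ Int.fract (n * z.1 - z.2) < ε := by
    intro n
    rw [show (n:ℝ) * (2 * Real.pi * z.1) - 2 * Real.pi * z.2 = 2 * Real.pi * (n * z.1 - z.2) by ring,
      mod2pi_eq, mul_lt_mul_iff_right₀ hp]
  have e2 : ∀ n : ℕ, ¬ (mod2pi (n * (2 * Real.pi * z.1) - n * (2 * Real.pi * z.2)) < 2 * Real.pi * ε)
      ↔ ε ≤ Int.fract (n * (z.1 - z.2)) := by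
    intro n
    rw [show (n:ℝ) * (2 * Real.pi * z.1) - n * (2 * Real.pi * z.2)
      = 2 * Real.pi * (n * (z.1 - z.2)) by ring,
      mod2pi_eq, not_lt, mul_le_mul_iff_right₀ hp]
  simp only [e1, e2]
  have e3 : ∀ x : ℝ, (0 ≤ 2 * Real.pi * x ∧ 2 * Real.pi * x < 2 * Real.pi) ↔ (0 ≤ x ∧ x < 1) := by
    intro x
    constructor
    · rintro ⟨h1, h2⟩
      exact ⟨by by_contra h; push Not at h; nlinarith, by nlinarith⟩
    · rintro ⟨h1, h2⟩
      exact ⟨by positivity, by nlinarith⟩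
  rw [e3, e3]

lemma vol_E : volume.real E = 4 * Real.pi ^ 2 := by
  unfold E
  rw [measureReal_def, Measure.volume_eq_prod, Measure.prod_prod, Real.volume_Ico,
    ENNReal.toReal_mul, ENNReal.toReal_ofReal (by linarith [Real.two_pi_pos])]
  ring

lemma vol_E1 (ε : ℝ) : volume.real (E1 (2 * Real.pi * ε))
    = 4 * Real.pi ^ 2 * volume.real (Pool.Agent.X116.Ra.E1u ε) := by
  have hp := Real.two_pi_pos
  have h : Pool.Agent.X116.Ra.E1u ε = (fun z : ℝ × ℝ => (2 * Real.pi) • z) ⁻¹' (E1 (2 * Real.pi * ε)) := by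
    ext z; exact (mem_scaled ε z).symm
  have h2 := Measure.addHaar_preimage_smul (volume : Measure (ℝ × ℝ)) hp.ne' (E1 (2 * Real.pi * ε))
  rw [← h] at h2
  rw [measureReal_def, measureReal_def, h2, ENNReal.toReal_mul]
  have hf : Module.finrank ℝ (ℝ × ℝ) = 2 := by simp
  rw [hf, ENNReal.toReal_ofReal (abs_nonneg _), abs_of_pos (by positivity)]
  field_simp
  ring

lemma E1u_meas (ε : ℝ) : MeasurableSet (Pool.Agent.X116.Ra.E1u ε) := by
  have e : Pool.Agent.X116.Ra.E1u ε = Pool.Agent.X116.Ra.sq ∩ ⋃ n : ℕ, ⋃ (_ : 1 ≤ n),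
      ({z : ℝ × ℝ | Int.fract (n * z.1 - z.2) < ε} ∩
        ⋂ k : ℕ, ⋂ (_ : 1 ≤ k), ⋂ (_ : k ≤ n), {z : ℝ × ℝ | ε ≤ Int.fract (k * (z.1 - z.2))}) := by
    ext z
    simp only [Pool.Agent.X116.Ra.E1u, Set.mem_ofPred_eq, Set.mem_inter_iff, Set.mem_iUnion,
      Set.mem_iInter, exists_prop]
  rw [e]
  refine Pool.Agent.X116.Ra.sq_meas.inter (MeasurableSet.iUnion fun n =>
    MeasurableSet.iUnion fun _ => MeasurableSet.inter ?_ ?_)
  · exact measurableSet_lt (measurable_fract.comp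
      ((measurable_const.mul measurable_fst).sub measurable_snd)) measurable_const
  · refine MeasurableSet.iInter fun k => MeasurableSet.iInter fun _ => MeasurableSet.iInter fun _ => ?_
    exact measurableSet_le measurable_const (measurable_fract.comp
      (measurable_const.mul (measurable_fst.sub measurable_snd)))

lemma E1_meas (ε : ℝ) : MeasurableSet (E1 (2 * Real.pi * ε)) := by
  have hp := Real.two_pi_pos
  have e : E1 (2 * Real.pi * ε)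
      = (fun z : ℝ × ℝ => (2 * Real.pi)⁻¹ • z) ⁻¹' (Pool.Agent.X116.Ra.E1u ε) := by
    ext z
    have h := mem_scaled ε ((2 * Real.pi)⁻¹ • z)
    rw [smul_inv_smul₀ hp.ne'] at h
    exact h
  rw [e]
  exact (measurable_const_smul (2 * Real.pi)⁻¹) (E1u_meas ε)

/-- For all sufficiently small `ε` the set `E¹_ε` is larger than `E²_ε` by at least one fiftieth
of the total mass `μ(E) = 4π²`; in particular `μ(E¹_ε) - μ(E²_ε)` does not tend to `0`. -/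
theorem result :
    (∃ ε₀ : ℝ, 0 < ε₀ ∧ ∀ ε : ℝ, 0 < ε → ε < ε₀ →
      4 * Real.pi ^ 2 / 50 ≤ volume.real (E1 ε) - volume.real (E2 ε)) ∧
    ¬ Tendsto (fun ε : ℝ => volume.real (E1 ε) - volume.real (E2 ε)) (𝓝[>] 0) (𝓝 0) := by
  have hp := Real.two_pi_pos
  have hpi := Real.pi_pos
  have main : ∃ ε₀ : ℝ, 0 < ε₀ ∧ ∀ ε : ℝ, 0 < ε → ε < ε₀ →
      4 * Real.pi ^ 2 / 50 ≤ volume.real (E1 ε) - volume.real (E2 ε) := by
    obtain ⟨δ, hδ0, hδ1, hδ⟩ := Pool.Agent.X116.Ra.exists_small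
    refine ⟨2 * Real.pi * δ, by positivity, fun ε hε hlt => ?_⟩
    set t := ε / (2 * Real.pi) with ht
    have hεt : ε = 2 * Real.pi * t := by rw [ht]; field_simp
    have ht0 : 0 < t := by positivity
    have ht1 : t < δ := by rw [ht, div_lt_iff₀ hp]; linarith
    have hlow := Pool.Agent.X116.Ra.main_lower ht0 (by linarith) (hδ t ht0 ht1)
    rw [hεt]
    have hv := vol_E1 t
    have hsub : E1 (2 * Real.pi * t) ⊆ E := fun z hz => hz.1
    have hEfin : volume E ≠ ⊤ := by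
      unfold E
      rw [Measure.volume_eq_prod, Measure.prod_prod, Real.volume_Ico]
      exact ENNReal.mul_ne_top ENNReal.ofReal_ne_top ENNReal.ofReal_ne_top
    have hge : volume.real (E1 (2 * Real.pi * t)) + volume.real (E2 (2 * Real.pi * t))
        = volume.real E := by
      have h := measureReal_inter_add_sdiff (μ := (volume : Measure (ℝ × ℝ))) (s := E) (E1_meas t) hEfin
      rw [Set.inter_eq_right.2 hsub] at h
      exact h
    rw [vol_E] at hge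
    nlinarith [sq_nonneg Real.pi, mul_le_mul_of_nonneg_left hlow (by positivity : 0 ≤ 4 * Real.pi ^ 2)]
  refine ⟨main, fun hT => ?_⟩
  obtain ⟨ε₀, h0, h⟩ := main
  have hev : ∀ᶠ ε in 𝓝[>] (0:ℝ), 4 * Real.pi ^ 2 / 50
      ≤ volume.real (E1 ε) - volume.real (E2 ε) := by
    filter_upwards [Ioo_mem_nhdsGT h0] with ε hε
    exact h ε hε.1 hε.2
  have := ge_of_tendsto hT hev
  have : 0 < 4 * Real.pi ^ 2 / 50 := by positivity
  linarith

end Pool.Agent.Results.MP_a4d326_an.NotBalanced
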